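import Mathlib
import Pool.Agent.H365R4.Tw

set_option autoImplicit false

open scoped Manifold ContDiff Topology
open Set Filter

namespace Pool.Agent.Results.MP_fe72db_an.NontrivialCentralizersOnTorus

open Pool.Agent.H365R3 Pool.Agent.H365R4

section

variable {E : Type} [NormedAddCommGroup E] [NormedSpace ℝ E] {H : Type} [TopologicalSpace H]

/-- The set `𝒪` of the problem for the manifold `M`: the `C¹` Axiom A diffeomorphisms without
cycles that have a nontrivial homoclinic class. -/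
def OO (I : ModelWithCorners ℝ E H) (M : Type) [TopologicalSpace M] [ChartedSpace H M]
    [IsManifold I 1 M] : Set (M ≃ₘ^1⟮I, I⟯ M) :=
  {f | AxiomA f ∧ NoCycles f ∧ HasNontrivialClass f}

/-- Q1 for the manifold `M`: there is a relatively open and dense subset of `OO` all of whose
elements have trivial centralizer. -/
def OpenDenseTrivial (I : ModelWithCorners ℝ E H) (M : Type) [TopologicalSpace M]
    [ChartedSpace H M] [IsManifold I 1 M] : Prop :=
  ∃ U : Set (M ≃ₘ^1⟮I, I⟯ M), (∃ W, IsOpen W ∧ U = OO I M ∩ W) ∧ OO I M ⊆ closure U ∧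
    ∀ f ∈ U, TrivialCentralizer f

/-- There is a nonempty relatively open subset of `OO` in which the diffeomorphisms with
nontrivial centralizer are dense. -/
def LocallyDenseNontrivial (I : ModelWithCorners ℝ E H) (M : Type) [TopologicalSpace M]
    [ChartedSpace H M] [IsManifold I 1 M] : Prop :=
  ∃ V : Set (M ≃ₘ^1⟮I, I⟯ M), V.Nonempty ∧ (∃ W, IsOpen W ∧ V = OO I M ∩ W) ∧
    V ⊆ closure {f | f ∈ V ∧ ¬ TrivialCentralizer f}

end

/-- There is a compact connected smooth surface `M` without boundary (namely the two-torus) such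
that, with `OO` the set of `C¹` Axiom A diffeomorphisms of `M` without cycles that have a
nontrivial homoclinic class, and with the `C¹` topology on `Diff¹(M)`: there is a nonempty
relatively open subset of `OO` in which the diffeomorphisms with nontrivial centralizer are
dense, and no relatively open and dense subset of `OO` consists of diffeomorphisms with trivial
centralizer. -/
theorem result :
    ∃ (E : Type) (_ : NormedAddCommGroup E) (_ : NormedSpace ℝ E) (_ : FiniteDimensional ℝ E)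
      (H : Type) (_ : TopologicalSpace H) (I : ModelWithCorners ℝ E H) (_ : I.Boundaryless)
      (M : Type) (_ : TopologicalSpace M) (_ : ChartedSpace H M) (_ : IsManifold I ∞ M)
      (_ : IsManifold I 1 M) (_ : CompactSpace M) (_ : T2Space M) (_ : ConnectedSpace M),
      Module.finrank ℝ E = 2 ∧ Nonempty (M ≃ₜ Circle × Circle) ∧
        LocallyDenseNontrivial I M ∧ ¬ OpenDenseTrivial I M := by
  have hlc : LocallyConnectedSpace (ModelProd (EuclideanSpace ℝ (Fin 1))
      (EuclideanSpace ℝ (Fin 1))) := inferInstanceAs (LocallyConnectedSpace EE2)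
  have hfd : FiniteDimensional ℝ EE2 := inferInstance
  have hne : (cht2 0).ψ 0 ≠ (cht2 qq).ψ 0 := by
    intro h
    have hr := sinkd1.hr
    have h1 : (cht2 0).ψ 0 ∈ disk (cht2 0) (1 / 40) := mem_of_mem_nhds
      (sink1.disk_nhds (by norm_num))
    have h2 : (cht2 qq).ψ 0 ∈ disk (cht2 qq) (1 / 40) := disk_mono _ (by unfold rD; norm_num)
      (mem_of_mem_nhds (sinkd1.disk_nhds hr))
    exact CD_disj.ne_of_mem h1 h2 h
  have hO : F1 ∈ OO I2 T2 := ⟨F1_axiomA, F1_noCycles, F1_nontrivial⟩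
  have hOO : ∀ g : T2 ≃ₘ^1⟮I2, I2⟯ T2, g ∈ OO I2 T2 ↔ g ∈ OSet I2 T2 ∧ HasNontrivialClass g :=
    fun g => ⟨fun h => ⟨⟨h.1, h.2.1⟩, h.2.2⟩, fun h => ⟨h.1.1, h.1.2, h.2⟩⟩
  have key := criterion' (P := HasNontrivialClass) (F := V2) (c := cht2 0) (d := cht2 qq)
    (f := F1) (k₁ := 3 / 8) (k₂ := 1 / 16) (r := rD)
    (fun _ _ _ _ _ _ h hf => nontrivial_pair h hf)
    (sink1.mono sinkd1.hr (by unfold rD; norm_num)) sinkd1 hne yc fwd1 bwd1
    (1 / 1000000000000) (by norm_num)
    (fun L L' h h' A => align2 L L' _ _ ee (1 / 1000000000000) rfl rfl deriv_p deriv_q h h' A)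
  obtain ⟨W, hW, hWo, hfW⟩ := mem_nhds_iff.1 key
  have hdense : ∀ g ∈ OO I2 T2 ∩ W, g ∈ closure {f | f ∈ OO I2 T2 ∩ W ∧
      ¬ TrivialCentralizer f} := by
    intro g hg
    rw [mem_closure_iff_nhds]
    intro N hN
    obtain ⟨g', hg', h1, h2⟩ := hW hg.2 ((hOO g).1 hg.1) (N ∩ W)
      (inter_mem hN (hWo.mem_nhds hg.2))
    exact ⟨g', hg'.1, ⟨(hOO g').2 h1, hg'.2⟩, h2⟩
  refine ⟨EE2, inferInstance, inferInstance, inferInstance, _, inferInstance, I2, inferInstance,
    T2, inferInstance, inferInstance, inferInstance, inferInstance, inferInstance, inferInstance,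
    inferInstance, ?_, ⟨Homeomorph.refl _⟩,
    ⟨OO I2 T2 ∩ W, ⟨F1, hO, hfW⟩, ⟨W, hWo, rfl⟩, hdense⟩, ?_⟩
  · simp [EE2]
  · rintro ⟨U, ⟨W', hW', rfl⟩, hdenseU, htriv⟩
    obtain ⟨g, hgW, hg⟩ := mem_closure_iff_nhds.1 (hdenseU hO) W (hWo.mem_nhds hfW)
    obtain ⟨g', hg', h1, h2⟩ := hW hgW ((hOO g).1 hg.1) W' (hW'.mem_nhds hg.2)
    exact h2 (htriv g' ⟨(hOO g').2 h1, hg'⟩)

end Pool.Agent.Results.MP_fe72db_an.NontrivialCentralizersOnTorus
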